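import Pool.Agent.H30.GMC.StX

/-!
# GMC, module JACC: the Jacobian criterion at prime ideals of height at least two in
`ℂ[X_0, X_1, X_2]`
-/

open MvPolynomial

namespace GMC.JACC

/-! ### heights -/

section
open Polynomial
attribute [local instance] Polynomial.algebra Polynomial.isLocalization

theorem height_le_one {R : Type} [CommRing R] [IsDomain R] (P : Ideal R[X]) [hP0 : P.IsPrime]
    (h : ∀ r : R, Polynomial.C r ∈ P → r = 0) : P.height ≤ 1 := by
  have hdis : Disjoint (Submonoid.map Polynomial.C (nonZeroDivisors R) : Set R[X]) P := by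
    refine Set.disjoint_left.mpr fun a ⟨b, hb, hba⟩ ha => ?_
    subst hba
    exact nonZeroDivisors.ne_zero hb (h b ha)
  have h1 : (P.map (algebraMap R[X] (FractionRing R)[X])).height = P.height :=
    IsLocalization.height_map_of_disjoint (Submonoid.map Polynomial.C (nonZeroDivisors R)) P hdis
  have hP : (P.map (algebraMap R[X] (FractionRing R)[X])).IsPrime :=
    IsLocalization.isPrime_of_isPrime_disjoint (Submonoid.map Polynomial.C (nonZeroDivisors R))
      (FractionRing R)[X] P hP0 hdis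
  have h2 := Ideal.height_le_ringKrullDim_of_ne_top hP.ne_top
  rw [Polynomial.ringKrullDim_of_isNoetherianRing, ringKrullDim_eq_zero_of_field, zero_add, h1]
    at h2
  exact_mod_cast h2

end

theorem fse (r : MvPolynomial (Fin 2) ℂ) :
    finSuccEquiv ℂ 2 (rename Fin.succ r) = Polynomial.C r := by
  induction r using MvPolynomial.induction_on with
  | C a =>
    rw [rename_C]
    exact (finSuccEquiv ℂ 2).commutes a
  | add p q hp hq => rw [map_add, map_add, hp, hq, map_add]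
  | mul_X p k hp => rw [map_mul, map_mul, hp, rename_X, finSuccEquiv_X_succ, map_mul]

/-- the variable `i` separated -/
noncomputable def eqv (i : Fin 3) :
    MvPolynomial (Fin 3) ℂ ≃+* Polynomial (MvPolynomial (Fin 2) ℂ) :=
  (renameEquiv ℂ (Equiv.swap 0 i)).toRingEquiv.trans (finSuccEquiv ℂ 2).toRingEquiv

theorem eqv_apply (i : Fin 3) (f : MvPolynomial (Fin 3) ℂ) :
    eqv i f = finSuccEquiv ℂ 2 (rename (Equiv.swap 0 i) f) := rfl

theorem eqv_symm_C (i : Fin 3) (r : MvPolynomial (Fin 2) ℂ) :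
    (eqv i).symm (Polynomial.C r) = rename (fun k => Equiv.swap 0 i (Fin.succ k)) r := by
  rw [RingEquiv.symm_apply_eq, eqv_apply, rename_rename]
  have h2 : (Equiv.swap 0 i) ∘ (fun k : Fin 2 => Equiv.swap 0 i (Fin.succ k)) = Fin.succ := by
    funext k
    exact Equiv.swap_apply_self _ _ _
  rw [h2, fse]

theorem pderiv_eqv_symm (i : Fin 3) (r : MvPolynomial (Fin 2) ℂ) :
    pderiv i ((eqv i).symm (Polynomial.C r)) = 0 := by
  rw [eqv_symm_C]
  refine pderiv_eq_zero_of_notMem_vars fun h => ?_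
  classical
  have h3 := vars_rename _ _ h
  rw [Finset.mem_image] at h3
  obtain ⟨k, -, hk⟩ := h3
  have h5 := congrArg (Equiv.swap 0 i) hk
  rw [Equiv.swap_apply_self, Equiv.swap_apply_right] at h5
  exact Fin.succ_ne_zero k h5

/-- A prime ideal of height at least two contains a nonzero polynomial without the variable `i`. -/
theorem exists_elim (p : Ideal (MvPolynomial (Fin 3) ℂ)) (hp : p.IsPrime) (hh : 2 ≤ p.height)
    (i : Fin 3) : ∃ f ∈ p, pderiv i f = 0 ∧ f ≠ 0 := by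
  by_contra hc
  push Not at hc
  have hP : (p.comap (eqv i).symm).IsPrime := Ideal.comap_isPrime _ _
  have h1 : (p.comap (eqv i).symm).height ≤ 1 := by
    refine height_le_one _ fun r hr => ?_
    have h2 : (eqv i).symm (Polynomial.C r) ∈ p := hr
    have h3 := hc _ h2 (pderiv_eqv_symm i r)
    have h4 : Polynomial.C r = 0 := by
      rwa [map_eq_zero_iff _ (eqv i).symm.injective] at h3
    exact Polynomial.C_eq_zero.1 h4
  rw [RingEquiv.height_comap] at h1
  have h5 := hh.trans h1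
  norm_num at h5

/-! ### derivatives -/

theorem pderiv_comm (i j : Fin 3) (f : MvPolynomial (Fin 3) ℂ) :
    pderiv i (pderiv j f) = pderiv j (pderiv i f) := by
  ext m
  rw [coeff_pderiv, coeff_pderiv, coeff_pderiv, coeff_pderiv, add_right_comm]
  by_cases h : i = j
  · subst h; rfl
  · rw [Finsupp.add_apply, Finsupp.add_apply, Finsupp.single_eq_of_ne (Ne.symm h),
      Finsupp.single_eq_of_ne h]
    ring

theorem totalDegree_pderiv (j : Fin 3) (f : MvPolynomial (Fin 3) ℂ) (h : pderiv j f ≠ 0) :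
    (pderiv j f).totalDegree < f.totalDegree := by
  rw [totalDegree, Finset.sup_lt_iff]
  · intro m hm
    have h1 : coeff (m + Finsupp.single j 1) f ≠ 0 := by
      intro h0
      rw [mem_support_iff, coeff_pderiv, h0, zero_mul] at hm
      exact hm rfl
    have h2 := le_totalDegree (mem_support_iff.2 h1)
    have h3 : ((m + Finsupp.single j 1).sum fun _ e => e) = (m.sum fun _ e => e) + 1 := by
      rw [Finsupp.sum_add_index' (fun _ => rfl) (fun _ _ _ => rfl), Finsupp.sum_single_index rfl]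
    omega
  · obtain ⟨m, hm⟩ := ne_zero_iff.1 h
    have h1 : coeff (m + Finsupp.single j 1) f ≠ 0 := by
      intro h0
      rw [coeff_pderiv, h0, zero_mul] at hm
      exact hm rfl
    have h2 := le_totalDegree (mem_support_iff.2 h1)
    have h3 : ((m + Finsupp.single j 1).sum fun _ e => e) = (m.sum fun _ e => e) + 1 := by
      rw [Finsupp.sum_add_index' (fun _ => rfl) (fun _ _ _ => rfl), Finsupp.sum_single_index rfl]
    rw [bot_eq_zero]
    omega

theorem min_lemma (p : Ideal (MvPolynomial (Fin 3) ℂ)) (Z : MvPolynomial (Fin 3) ℂ → Prop)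
    (j : Fin 3) (hZ : ∀ f, Z f → Z (pderiv j f)) (n : ℕ) :
    ∀ f ∈ p, f.totalDegree ≤ n → Z f → f ≠ 0 →
      ∃ g ∈ p, Z g ∧ g ≠ 0 ∧ (pderiv j g ∉ p ∨ pderiv j g = 0) := by
  induction n with
  | zero =>
    intro f hf hd hz h0
    refine ⟨f, hf, hz, h0, Or.inr ?_⟩
    by_contra hc
    have := totalDegree_pderiv j f hc
    omega
  | succ n ih =>
    intro f hf hd hz h0
    by_cases h1 : pderiv j f = 0
    · exact ⟨f, hf, hz, h0, Or.inr h1⟩
    by_cases h2 : pderiv j f ∈ p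
    · have := totalDegree_pderiv j f h1
      exact ih _ h2 (by omega) (hZ f hz) h1
    · exact ⟨f, hf, hz, h0, Or.inl h2⟩

/-- a polynomial all whose derivatives vanish is a constant -/
theorem eq_C_of_pderiv (f : MvPolynomial (Fin 3) ℂ) (h : ∀ i, pderiv i f = 0) :
    f = C (coeff 0 f) := by
  classical
  ext m
  rw [coeff_C]
  split_ifs with h0
  · rw [h0]
  · have h1 : ∃ i, m i ≠ 0 := by
      by_contra hc
      push Not at hc
      apply h0
      ext i
      exact (hc i).symm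
    obtain ⟨i, hi⟩ := h1
    have h2 := congrArg (coeff (m - Finsupp.single i 1)) (h i)
    rw [coeff_pderiv, coeff_zero] at h2
    have h3 : m - Finsupp.single i 1 + Finsupp.single i 1 = m := by
      refine tsub_add_cancel_of_le ?_
      rw [Finsupp.single_le_iff]
      omega
    rw [h3] at h2
    rcases mul_eq_zero.1 h2 with h4 | h4
    · exact h4
    · exfalso
      have h5 : (((m - Finsupp.single i 1 : Fin 3 →₀ ℕ) i + 1 : ℕ) : ℂ) = 0 := by
        push_cast
        exact h4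
      exact Nat.succ_ne_zero _ (Nat.cast_eq_zero.1 h5)

theorem det0 {R : Type} [CommRing R] (a b : Fin 3 → R) :
    Matrix.det (Matrix.of ![a, b, Pi.single 0 1]) = a 1 * b 2 - a 2 * b 1 := by
  rw [Matrix.det_fin_three]
  simp [Matrix.of_apply]

theorem det1 {R : Type} [CommRing R] (a b : Fin 3 → R) :
    Matrix.det (Matrix.of ![a, b, Pi.single 1 1]) = a 2 * b 0 - a 0 * b 2 := by
  rw [Matrix.det_fin_three]
  simp [Matrix.of_apply]
  rw [neg_add_eq_sub]

theorem det2 {R : Type} [CommRing R] (a b : Fin 3 → R) :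
    Matrix.det (Matrix.of ![a, b, Pi.single 2 1]) = a 0 * b 1 - a 1 * b 0 := by
  rw [Matrix.det_fin_three]
  simp [Matrix.of_apply]

/-- the conclusion -/
def Concl (p : Ideal (MvPolynomial (Fin 3) ℂ)) : Prop :=
  ∃ f₁ ∈ p, ∃ f₂ ∈ p, ∃ i : Fin 3,
    Matrix.det (Matrix.of ![fun j => pderiv j f₁, fun j => pderiv j f₂, Pi.single i 1]) ∉ p

theorem concl2 (p : Ideal (MvPolynomial (Fin 3) ℂ)) (hp : p.IsPrime) (f g) (hf : f ∈ p)
    (hg : g ∈ p) (h1 : pderiv 1 f = 0) (h2 : pderiv 0 g = 0) (h3 : pderiv 0 f ∉ p)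
    (h4 : pderiv 1 g ∉ p) : Concl p := by
  refine ⟨f, hf, g, hg, 2, ?_⟩
  rw [det2]
  intro h
  rw [h1, h2, zero_mul, sub_zero] at h
  exact (hp.mem_or_mem h).elim h3 h4

theorem concl1 (p : Ideal (MvPolynomial (Fin 3) ℂ)) (hp : p.IsPrime) (f g) (hf : f ∈ p)
    (hg : g ∈ p) (h1 : pderiv 2 f = 0) (h2 : pderiv 0 g = 0) (h3 : pderiv 0 f ∉ p)
    (h4 : pderiv 2 g ∉ p) : Concl p := by
  refine ⟨f, hf, g, hg, 1, ?_⟩
  rw [det1]
  intro h
  rw [h1, h2, zero_mul, zero_sub, neg_mem_iff] at h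
  exact (hp.mem_or_mem h).elim h3 h4

theorem concl0 (p : Ideal (MvPolynomial (Fin 3) ℂ)) (hp : p.IsPrime) (f g) (hf : f ∈ p)
    (hg : g ∈ p) (h1 : pderiv 2 f = 0) (h2 : pderiv 1 g = 0) (h3 : pderiv 1 f ∉ p)
    (h4 : pderiv 2 g ∉ p) : Concl p := by
  refine ⟨f, hf, g, hg, 0, ?_⟩
  rw [det0]
  intro h
  rw [h1, h2, zero_mul, sub_zero] at h
  exact (hp.mem_or_mem h).elim h3 h4

theorem case_one (p : Ideal (MvPolynomial (Fin 3) ℂ)) (hp : p.IsPrime) (hh : 2 ≤ p.height)
    (i j k : Fin 3) (hl : ∀ l, l ≠ i → l = j ∨ l = k)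
    (hi : ∀ g ∈ p, (∀ j, j ≠ i → pderiv j g = 0) → g = 0) :
    ∃ f ∈ p, pderiv k f = 0 ∧ pderiv j f ∉ p := by
  obtain ⟨f, hf, hkf, h0⟩ := exists_elim p hp hh k
  obtain ⟨g, hg, hz, hg0, h⟩ := min_lemma p (fun f => pderiv k f = 0) j
    (fun f hf => by rw [pderiv_comm, hf, map_zero]) _ f hf le_rfl hkf h0
  refine ⟨g, hg, hz, h.resolve_right fun h2 => hg0 (hi g hg fun l hl' => ?_)⟩
  rcases hl l hl' with h3 | h3
  · rw [h3]; exact h2
  · rw [h3]; exact hz

theorem case_two (p : Ideal (MvPolynomial (Fin 3) ℂ)) (hp : p.IsPrime) (i : Fin 3)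
    (hc : ∃ g ∈ p, (∀ j, j ≠ i → pderiv j g = 0) ∧ g ≠ 0) :
    ∃ f ∈ p, (∀ j, j ≠ i → pderiv j f = 0) ∧ pderiv i f ∉ p := by
  obtain ⟨f, hf, hz, h0⟩ := hc
  obtain ⟨g, hg, hz', hg0, h⟩ := min_lemma p (fun f => ∀ j, j ≠ i → pderiv j f = 0) i
    (fun f hf j hj => by rw [pderiv_comm, hf j hj, map_zero]) _ f hf le_rfl hz h0
  refine ⟨g, hg, hz', h.resolve_right fun h2 => ?_⟩
  have h3 := eq_C_of_pderiv g fun l => by
    by_cases hl : l = i
    · rw [hl]; exact h2
    · exact hz' l hl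
  have h4 : coeff 0 g ≠ 0 := fun h4 => hg0 (by rw [h3, h4, C_0])
  apply hp.ne_top
  refine Ideal.eq_top_of_isUnit_mem p (x := C (coeff 0 g)) ?_ ?_
  · rw [← h3]; exact hg
  · exact IsUnit.map C (isUnit_iff_ne_zero.2 h4)

theorem main (p : Ideal (MvPolynomial (Fin 3) ℂ)) (hp : p.IsPrime) (hh : 2 ≤ p.height) :
    Concl p := by
  by_cases hc : ∃ i : Fin 3, ∀ g ∈ p, (∀ j, j ≠ i → pderiv j g = 0) → g = 0
  · obtain ⟨i, hi⟩ := hc
    have h012 : ∀ i : Fin 3, i = 0 ∨ i = 1 ∨ i = 2 := by decide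
    rcases h012 i with rfl | rfl | rfl
    · obtain ⟨f, hf, h1, h2⟩ := case_one p hp hh 0 1 2 (by decide) hi
      obtain ⟨g, hg, h3, h4⟩ := case_one p hp hh 0 2 1 (by decide) hi
      exact concl0 p hp f g hf hg h1 h3 h2 h4
    · obtain ⟨f, hf, h1, h2⟩ := case_one p hp hh 1 0 2 (by decide) hi
      obtain ⟨g, hg, h3, h4⟩ := case_one p hp hh 1 2 0 (by decide) hi
      exact concl1 p hp f g hf hg h1 h3 h2 h4
    · obtain ⟨f, hf, h1, h2⟩ := case_one p hp hh 2 0 1 (by decide) hi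
      obtain ⟨g, hg, h3, h4⟩ := case_one p hp hh 2 1 0 (by decide) hi
      exact concl2 p hp f g hf hg h1 h3 h2 h4
  · push Not at hc
    obtain ⟨f, hf, h1, h2⟩ := case_two p hp 0 (hc 0)
    obtain ⟨g, hg, h3, h4⟩ := case_two p hp 1 (hc 1)
    exact concl2 p hp f g hf hg (h1 1 (by decide)) (h3 0 (by decide)) h2 h4

end GMC.JACC

namespace GMC

theorem jacc_thm : S_JACC := fun p hp hh => JACC.main p hp hh

end GMC
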