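import Pool.Agent.H30.GMC.StX

/-!
# GMC, module LOCO: Jacobian determinants of coordinates which are regular at a divisor
-/

open MvPolynomial

namespace GMC.LOCO

section
variable {K : Type} [Field K] {O : Subring K} {v : K → ℤ}

theorem v_one (h : IsDV O v) : v 1 = 0 := by
  have := h.mul 1 1 one_ne_zero one_ne_zero
  rw [mul_one] at this
  omega

theorem v_inv (h : IsDV O v) {x : K} (hx : x ≠ 0) : v x⁻¹ = -v x := by
  have := h.mul x x⁻¹ hx (inv_ne_zero hx)
  rw [mul_inv_cancel₀ hx, v_one h] at this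
  omega

/-- elements of positive valuation are multiples of the uniformiser -/
theorem exists_mul (h : IsDV O v) {t : K} (ht : t ≠ 0) (ht1 : v t = 1) {x : K}
    (hx : x = 0 ∨ 0 < v x) : ∃ y ∈ O, x = t * y := by
  by_cases h0 : x = 0
  · exact ⟨0, O.zero_mem, by rw [h0, mul_zero]⟩
  · refine ⟨x * t⁻¹, (h.mem _).2 (Or.inr ?_), by field_simp⟩
    rw [h.mul _ _ h0 (inv_ne_zero ht), v_inv h ht, ht1]
    have := hx.resolve_left h0
    omega

theorem one_le (h : IsDV O v) {t : K} (ht : t ≠ 0) (ht1 : v t = 1) {y : K} (hy : y ∈ O)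
    (h0 : t * y ≠ 0) : 1 ≤ v (t * y) := by
  have hy0 : y ≠ 0 := right_ne_zero_of_mul h0
  rw [h.mul _ _ ht hy0, ht1]
  have := ((h.mem y).1 hy).resolve_left hy0
  omega

variable [Algebra ℂ K]

theorem aeval_mem (hC : ∀ z : ℂ, algebraMap ℂ K z ∈ O) {a : Fin 3 → K} (ha : ∀ i, a i ∈ O)
    (F : MvPolynomial (Fin 3) ℂ) : aeval a F ∈ O := by
  induction F using MvPolynomial.induction_on with
  | C z => rw [aeval_C]; exact hC z
  | add p q hp hq => rw [map_add]; exact O.add_mem hp hq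
  | mul_X p i hp => rw [map_mul, aeval_X]; exact O.mul_mem hp (ha i)

/-- the chain rule -/
theorem chain (δ : Derivation ℂ K K) (a : Fin 3 → K) (F : MvPolynomial (Fin 3) ℂ) :
    δ (aeval a F) = ∑ k, aeval a (pderiv k F) * δ (a k) := by
  induction F using MvPolynomial.induction_on with
  | C z => simp
  | add p q hp hq =>
    rw [map_add, map_add, hp, hq, ← Finset.sum_add_distrib]
    refine Finset.sum_congr rfl fun k _ => ?_
    rw [map_add, map_add, add_mul]
  | mul_X p i hp =>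
    rw [map_mul, aeval_X, Derivation.leibniz, hp, smul_eq_mul, smul_eq_mul, Finset.mul_sum]
    have h1 : ∀ k, aeval a (pderiv k (p * X i)) * δ (a k) =
        (a i * (aeval a (pderiv k p) * δ (a k))) + (if k = i then aeval a p * δ (a k) else 0) := by
      intro k
      rw [pderiv_mul, map_add, map_mul, map_mul, aeval_X, pderiv_X]
      by_cases hk : k = i
      · subst hk
        rw [if_pos rfl, Pi.single_eq_same, map_one]
        ring
      · rw [if_neg hk, Pi.single_eq_of_ne (Ne.symm hk), map_zero]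
        ring
    rw [Finset.sum_congr rfl fun k _ => h1 k, Finset.sum_add_distrib, Finset.sum_ite_eq',
      if_pos (Finset.mem_univ i)]
    ring

omit [Algebra ℂ K] in
theorem det_mem (M : Matrix (Fin 3) (Fin 3) K) (h : ∀ i j, M i j ∈ O) : M.det ∈ O := by
  rw [Matrix.det_fin_three]
  exact O.sub_mem (O.add_mem (O.add_mem (O.sub_mem (O.sub_mem
    (O.mul_mem (O.mul_mem (h _ _) (h _ _)) (h _ _)) (O.mul_mem (O.mul_mem (h _ _) (h _ _)) (h _ _)))
    (O.mul_mem (O.mul_mem (h _ _) (h _ _)) (h _ _))) (O.mul_mem (O.mul_mem (h _ _) (h _ _)) (h _ _)))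
    (O.mul_mem (O.mul_mem (h _ _) (h _ _)) (h _ _))) (O.mul_mem (O.mul_mem (h _ _) (h _ _)) (h _ _))

/-- the key congruence -/
theorem key (δ : Fin 3 → Derivation ℂ K K) (hδ : ∀ j, ∀ f ∈ O, δ j f ∈ O) {t : K} (ht : t ∈ O)
    {y₁ y₂ b : K} (h1 : y₁ ∈ O) (h2 : y₂ ∈ O) (hb : b ∈ O) :
    ∃ w ∈ O, Jac δ ![t * y₁, t * y₂, b] = t * w := by
  refine ⟨y₁ * Matrix.det (Matrix.of fun i j => δ j (![t, y₂, b] i)) +
    y₂ * Matrix.det (Matrix.of fun i j => δ j (![y₁, t, b] i)) +
    t * Matrix.det (Matrix.of fun i j => δ j (![y₁, y₂, b] i)), ?_, ?_⟩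
  · have h : ∀ c : Fin 3 → K, (∀ i, c i ∈ O) →
        Matrix.det (Matrix.of fun i j => δ j (c i)) ∈ O := fun c hc =>
      det_mem _ fun i j => hδ j _ (hc i)
    refine O.add_mem (O.add_mem (O.mul_mem h1 (h _ ?_)) (O.mul_mem h2 (h _ ?_)))
      (O.mul_mem ht (h _ ?_)) <;>
    · intro i
      fin_cases i <;> assumption
  · rw [Jac, Matrix.det_fin_three, Matrix.det_fin_three, Matrix.det_fin_three,
      Matrix.det_fin_three]
    simp only [Matrix.of_apply, Matrix.cons_val_zero, Matrix.cons_val_one, Matrix.cons_val,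
      Derivation.leibniz, smul_eq_mul]
    ring

/-- the Jacobian determinant of polynomials -/
theorem jac_aeval (δ : Fin 3 → Derivation ℂ K K) (a : Fin 3 → K)
    (F : Fin 3 → MvPolynomial (Fin 3) ℂ) : Jac δ (fun i => aeval a (F i)) =
      aeval a (Matrix.det (Matrix.of fun i j => pderiv j (F i))) * Jac δ a := by
  rw [Jac, Jac, AlgHom.map_det, ← Matrix.det_mul]
  congr 1
  ext i j
  rw [Matrix.mul_apply]
  exact chain (δ j) a (F i)

end

end GMC.LOCO

namespace GMC

open GMC.LOCO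

theorem loco_thm (h1 : S_JACC) : S_LOCO := by
  intro K _ _ O v hv hC δ hδ a ha hJ
  have hJO : Jac δ a ∈ O := det_mem _ fun i j => hδ j _ (ha i)
  refine ⟨((hv.mem _).1 hJO).resolve_left hJ, ?_⟩
  intro p hp hpm hh
  obtain ⟨f₁, hf₁, f₂, hf₂, i, hdet⟩ := h1 p hp hh
  obtain ⟨t, ht, ht1⟩ := hv.unif
  have htO : t ∈ O := (hv.mem t).2 (Or.inr (by omega))
  obtain ⟨y₁, hy₁, e₁⟩ := exists_mul hv ht ht1 ((hpm f₁).1 hf₁)
  obtain ⟨y₂, hy₂, e₂⟩ := exists_mul hv ht ht1 ((hpm f₂).1 hf₂)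
  obtain ⟨w, hw, hw'⟩ := key δ hδ htO hy₁ hy₂ (ha i)
  -- the determinant of the polynomials
  set G : MvPolynomial (Fin 3) ℂ := Matrix.det (Matrix.of ![fun j => pderiv j f₁,
    fun j => pderiv j f₂, Pi.single i 1]) with hG
  have hG0 : aeval a G ≠ 0 ∧ v (aeval a G) = 0 := by
    rw [hpm] at hdet
    push Not at hdet
    refine ⟨hdet.1, ?_⟩
    have h2 := ((hv.mem _).1 (aeval_mem hC ha G)).resolve_left hdet.1
    have h3 := hdet.2
    omega
  have h3 : Jac δ ![t * y₁, t * y₂, a i] = aeval a G * Jac δ a := by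
    have h4 := jac_aeval δ a ![f₁, f₂, X i]
    have h5 : (fun k => aeval a ((![f₁, f₂, X i] : Fin 3 → MvPolynomial (Fin 3) ℂ) k)) =
        ![t * y₁, t * y₂, a i] := by
      funext k
      fin_cases k
      · exact e₁
      · exact e₂
      · exact aeval_X a i
    have h6 : (Matrix.of fun k j => pderiv j ((![f₁, f₂, X i] : Fin 3 → MvPolynomial (Fin 3) ℂ) k)) =
        Matrix.of ![fun j => pderiv j f₁, fun j => pderiv j f₂, Pi.single i 1] := by
      ext1 k j
      fin_cases k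
      · rfl
      · rfl
      · change pderiv j (X i) = (Pi.single i 1 : Fin 3 → MvPolynomial (Fin 3) ℂ) j
        rw [pderiv_X]
        by_cases hij : j = i
        · subst hij; simp
        · rw [Pi.single_eq_of_ne (Ne.symm hij), Pi.single_eq_of_ne hij]
    rw [h5, h6] at h4
    exact h4
  rw [hw'] at h3
  have h7 : t * w ≠ 0 := by rw [h3]; exact mul_ne_zero hG0.1 hJ
  have h8 := one_le hv ht ht1 hw h7
  rw [h3, hv.mul _ _ hG0.1 hJ, hG0.2, zero_add] at h8
  exact h8

end GMC
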